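import Mathlib

/-! Topological part: closed invariant sets of a flow which are locally contained in an orbit, and
closed invariant sets which are contained in countably many orbits. -/

set_option autoImplicit false

open Set Filter Topology

namespace Q71.WN

variable {X : Type*} [TopologicalSpace X]

/-- If the orbit of `p` accumulates only at points near which the closed invariant set `F ∋ p` is
contained in a short piece of orbit, then `p` is periodic. -/
theorem periodic_of_isolated [CompactSpace X] (Φ : ℝ → X → X)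
    (hadd : ∀ s t x, Φ (s + t) x = Φ s (Φ t x)) (h0 : ∀ x, Φ 0 x = x)
    (F : Set X) (p : X) (hF : ∀ t, Φ t p ∈ F)
    (hiso : ∀ q ∈ closure (range fun t => Φ t p), ∃ U ∈ 𝓝 q, ∀ x ∈ F ∩ U, ∃ t : ℝ, |t| ≤ 1 / 3 ∧
      Φ t q = x) : ∃ T : ℝ, 0 < T ∧ Φ T p = p := by
  obtain ⟨q, hq⟩ := exists_clusterPt_of_compactSpace (map (fun n : ℕ => Φ n p) atTop)
  have hqK : q ∈ closure (range fun t => Φ t p) := by
    rw [mem_closure_iff_clusterPt]
    refine hq.mono ?_
    rw [le_principal_iff]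
    exact mem_map.2 (Filter.Eventually.of_forall fun n => ⟨(n : ℝ), rfl⟩)
  obtain ⟨U, hU, hUF⟩ := hiso q hqK
  have hfr := (mapClusterPt_iff_frequently.1 hq) U hU
  obtain ⟨n, -, hn⟩ := (frequently_atTop.1 hfr) 0
  obtain ⟨m, hm, hm2⟩ := (frequently_atTop.1 hfr) (n + 1)
  obtain ⟨s, hs, hs2⟩ := hUF _ ⟨hF n, hn⟩
  obtain ⟨s', hs', hs2'⟩ := hUF _ ⟨hF m, hm2⟩
  have e1 : Φ (n - s) p = q := by
    have : Φ (-s) (Φ n p) = q := by
      rw [← hs2, ← hadd, neg_add_cancel, h0]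
    rw [← this, ← hadd]; congr 1; ring
  have e2 : Φ (m - s') p = q := by
    have : Φ (-s') (Φ m p) = q := by
      rw [← hs2', ← hadd, neg_add_cancel, h0]
    rw [← this, ← hadd]; congr 1; ring
  refine ⟨(m - s') - (n - s), ?_, ?_⟩
  · have h1 : (n : ℝ) + 1 ≤ m := by exact_mod_cast hm
    have h2 := abs_le.1 hs
    have h3 := abs_le.1 hs'
    linarith [h2.1, h3.2]
  · have : Φ (-(n - s)) (Φ (m - s') p) = Φ (-(n - s)) (Φ (n - s) p) := by rw [e1, e2]
    rw [← hadd, ← hadd, neg_add_cancel, h0] at this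
    rw [← this]; congr 1; ring

/-- A nonempty compact invariant set contains a minimal one. -/
theorem exists_minimal [CompactSpace X] (Φ : ℝ → X → X) {S : Set X} (hS : IsClosed S)
    (hne : S.Nonempty) (hinv : ∀ x ∈ S, ∀ t, Φ t x ∈ S) :
    ∃ K ⊆ S, IsClosed K ∧ K.Nonempty ∧ (∀ x ∈ K, ∀ t, Φ t x ∈ K) ∧
      ∀ L ⊆ K, IsClosed L → L.Nonempty → (∀ x ∈ L, ∀ t, Φ t x ∈ L) → L = K := by
  let 𝒮 : Set (Set X) := {K | IsClosed K ∧ K.Nonempty ∧ ∀ x ∈ K, ∀ t, Φ t x ∈ K}
  obtain ⟨K, hKS, hK⟩ := zorn_superset_nonempty 𝒮 (fun c hc hchain hcne => by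
    refine ⟨⋂₀ c, ⟨isClosed_sInter fun s hs => (hc hs).1, ?_, ?_⟩, fun s hs => sInter_subset_of_mem hs⟩
    · have : Nonempty c := hcne.to_subtype
      refine IsCompact.nonempty_sInter_of_directed_nonempty_isCompact_isClosed ?_ ?_ ?_ ?_
      · intro a ha b hb
        rcases hchain.total ha hb with h | h
        · exact ⟨a, ha, le_rfl, h⟩
        · exact ⟨b, hb, h, le_rfl⟩
      · exact fun s hs => (hc hs).2.1
      · exact fun s hs => (hc hs).1.isCompact
      · exact fun s hs => (hc hs).1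
    · intro x hx t s hs
      exact (hc hs).2.2 x (hx s hs) t) S ⟨hS, hne, hinv⟩
  refine ⟨K, hKS, hK.prop.1, hK.prop.2.1, hK.prop.2.2, fun L hL h1 h2 h3 => ?_⟩
  exact subset_antisymm hL (hK.le_of_le ⟨h1, h2, h3⟩ hL)

/-- A nonempty closed invariant set contained in countably many orbits contains a periodic point. -/
theorem periodic_of_countable [T2Space X] [CompactSpace X] (Φ : ℝ → X → X)
    (hc : ∀ x, Continuous fun t => Φ t x) (hc' : ∀ t, Continuous (Φ t))
    (hadd : ∀ s t x, Φ (s + t) x = Φ s (Φ t x)) (h0 : ∀ x, Φ 0 x = x)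
    {S : Set X} (hS : IsClosed S)
    (hne : S.Nonempty) (hinv : ∀ x ∈ S, ∀ t, Φ t x ∈ S) (A : Set X) (hA : A.Countable)
    (hcov : ∀ x ∈ S, ∃ a ∈ A, ∃ t, Φ t a = x) : ∃ x ∈ S, ∃ T : ℝ, 0 < T ∧ Φ T x = x := by
  obtain ⟨K, hKS, hKc, hKne, hKinv, hKmin⟩ := exists_minimal Φ hS hne hinv
  have : CompactSpace K := isCompact_iff_compactSpace.1 hKc.isCompact
  have : Nonempty K := hKne.to_subtype
  have : Countable A := hA.to_subtype
  -- Baire
  let C : A × ℕ → Set K := fun an => Subtype.val ⁻¹' ((fun t => Φ t an.1.1) '' Icc (-(an.2 : ℝ)) an.2)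
  have hCc : ∀ an, IsClosed (C an) := fun an =>
    ((isCompact_Icc.image (hc _)).isClosed).preimage continuous_subtype_val
  have hCU : ⋃ an, C an = univ := by
    rw [eq_univ_iff_forall]
    intro x
    obtain ⟨a, ha, t, ht⟩ := hcov x (hKS x.2)
    obtain ⟨n, hn⟩ := exists_nat_ge |t|
    refine mem_iUnion.2 ⟨(⟨a, ha⟩, n), t, ?_, ht⟩
    exact ⟨(abs_le.1 hn).1, (abs_le.1 hn).2⟩
  obtain ⟨⟨a, n⟩, z, hz⟩ := nonempty_interior_of_iUnion_of_closed hCc hCU
  -- the interior in `K`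
  obtain ⟨U', hU', hU'2⟩ := isOpen_induced_iff.1 (isOpen_interior (s := C (a, n)))
  have hzU : (z : X) ∈ U' := by
    have : z ∈ Subtype.val ⁻¹' U' := by rw [hU'2]; exact hz
    exact this
  have hUC : ∀ x ∈ K, x ∈ U' → ∃ t ∈ Icc (-(n : ℝ)) n, Φ t a = x := by
    intro x hx hxU
    have h1 : (⟨x, hx⟩ : K) ∈ interior (C (a, n)) := by rw [← hU'2]; exact hxU
    have h2 : (⟨x, hx⟩ : K) ∈ C (a, n) := interior_subset h1
    exact h2
  -- the forward limit set of `z`
  let ω : Set X := ⋂ m : ℕ, closure ((fun t => Φ t (z : X)) '' Ici (m : ℝ))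
  have hω1 : IsClosed ω := isClosed_iInter fun _ => isClosed_closure
  have hω2 : ω.Nonempty := by
    refine IsCompact.nonempty_iInter_of_sequence_nonempty_isCompact_isClosed _ ?_ ?_ ?_ ?_
    · intro m
      refine closure_mono (image_mono ?_)
      intro t ht
      have h1 : ((m + 1 : ℕ) : ℝ) ≤ t := ht
      push_cast at h1
      show (m : ℝ) ≤ t
      linarith
    · intro m
      exact (nonempty_Ici.image _).closure
    · exact isClosed_closure.isCompact
    · exact fun _ => isClosed_closure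
  have hωK : ω ⊆ K := by
    intro x hx
    have h1 := mem_iInter.1 hx 0
    refine closure_minimal ?_ hKc h1
    rintro _ ⟨t, _, rfl⟩
    exact hKinv z z.2 t
  have hω3 : ∀ x ∈ ω, ∀ t, Φ t x ∈ ω := by
    intro x hx t
    refine mem_iInter.2 fun m => ?_
    obtain ⟨k, hk⟩ := exists_nat_ge ((m : ℝ) + |t|)
    have h1 := mem_iInter.1 hx k
    have h2 : MapsTo (Φ t) ((fun t => Φ t (z : X)) '' Ici (k : ℝ))
        ((fun t => Φ t (z : X)) '' Ici (m : ℝ)) := by
      rintro _ ⟨s, hs, rfl⟩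
      refine ⟨t + s, ?_, hadd _ _ _⟩
      have h3 : (k : ℝ) ≤ s := hs
      have h4 := neg_abs_le t
      show (m : ℝ) ≤ t + s
      linarith
    exact h2.closure (hc' t) h1
  have hωeq : ω = K := hKmin ω hωK hω1 hω2 hω3
  have hzω : (z : X) ∈ ω := by rw [hωeq]; exact z.2
  obtain ⟨s, hs, hs2⟩ := hUC z z.2 hzU
  have h1 := mem_iInter.1 hzω (2 * n + 1)
  obtain ⟨_, hyU, ⟨t, ht, rfl⟩⟩ := mem_closure_iff.1 h1 U' hU' hzU
  obtain ⟨s', hs', hs2'⟩ := hUC _ (hKinv z z.2 t) hyU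
  refine ⟨z, hKS z.2, t - s' + s, ?_, ?_⟩
  · have h3 : ((2 * n + 1 : ℕ) : ℝ) ≤ t := ht
    push_cast at h3
    linarith [hs.1, hs'.2]
  · have h4 : Φ (-s') (Φ s' (a : X)) = Φ (-s') (Φ t z) := by rw [hs2']
    rw [← hadd, neg_add_cancel, h0] at h4
    have h5 : Φ s (a : X) = Φ s (Φ (-s') (Φ t z)) := by rw [← h4]
    rw [hs2, ← hadd, ← hadd] at h5
    conv_rhs => rw [h5]
    congr 1; ring

end Q71.WN
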