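import Mathlib
import Pool.Agent.H826R2.Wein.HFlow
import Pool.Agent.Q71.WN.Top

/-! Derivatives of self-maps of a manifold at fixed points, in a fixed chart. -/

set_option autoImplicit false

open scoped Topology ContDiff Manifold
open Set Metric Bundle Pool.Agent.Helper186 Pool.Agent.H826R2.Wein

noncomputable section

namespace Q71.WN

set_option linter.unusedSectionVars false

universe u

variable {E : Type u} [NormedAddCommGroup E] [NormedSpace ℝ E] [FiniteDimensional ℝ E]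
  {M : Type*} [TopologicalSpace M] [ChartedSpace E M] [IsManifold 𝓘(ℝ, E) ∞ M]

/-- derivative of a self map, as an endomorphism of `E` -/
def Dm (g : M → M) (x : M) : E →L[ℝ] E := mfderiv 𝓘(ℝ, E) 𝓘(ℝ, E) g x

/-- the derivative of the chart at `q₀` at the point `q` -/
def Cd (q₀ q : M) : E →L[ℝ] E := mfderiv 𝓘(ℝ, E) 𝓘(ℝ, E) (extChartAt 𝓘(ℝ, E) q₀) q

/-- the expression of `g` in the chart at `q₀` -/
def hat (q₀ : M) (g : M → M) : E → E :=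
  (extChartAt 𝓘(ℝ, E) q₀) ∘ g ∘ (extChartAt 𝓘(ℝ, E) q₀).symm

lemma md_chart {q₀ q : M} (hq : q ∈ (extChartAt 𝓘(ℝ, E) q₀).source) :
    ContMDiffAt 𝓘(ℝ, E) 𝓘(ℝ, E) ∞ (extChartAt 𝓘(ℝ, E) q₀) q := by
  rw [extChartAt_source] at hq
  exact contMDiffAt_extChartAt' hq

lemma md_symm {q₀ q : M} (hq : q ∈ (extChartAt 𝓘(ℝ, E) q₀).source) :
    ContMDiffAt 𝓘(ℝ, E) 𝓘(ℝ, E) ∞ (extChartAt 𝓘(ℝ, E) q₀).symm (extChartAt 𝓘(ℝ, E) q₀ q) :=
  (contMDiffOn_extChartAt_symm q₀).contMDiffAt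
    ((isOpen_extChartAt_target q₀).mem_nhds ((extChartAt 𝓘(ℝ, E) q₀).map_source hq))

lemma symm_apply {q₀ q : M} (hq : q ∈ (extChartAt 𝓘(ℝ, E) q₀).source) :
    (extChartAt 𝓘(ℝ, E) q₀).symm (extChartAt 𝓘(ℝ, E) q₀ q) = q :=
  (extChartAt 𝓘(ℝ, E) q₀).left_inv hq

lemma source_mem {q₀ q : M} (hq : q ∈ (extChartAt 𝓘(ℝ, E) q₀).source) :
    (extChartAt 𝓘(ℝ, E) q₀).source ∈ 𝓝 q :=
  (isOpen_extChartAt_source q₀).mem_nhds hq

lemma Cd_self (q : M) : Cd q q = ContinuousLinearMap.id ℝ E := by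
  ext v
  exact mfderiv_extChartAt_self (I := 𝓘(ℝ, E)) q v

/-- the derivative of the chart is invertible -/
lemma Cd_inv {q₀ q : M} (hq : q ∈ (extChartAt 𝓘(ℝ, E) q₀).source) :
    ∃ L : E ≃L[ℝ] E, (L : E →L[ℝ] E) = Cd q₀ q := by
  have : IsManifold 𝓘(ℝ, E) 1 M := IsManifold.of_le (n := ∞) (by simp)
  have h := isInvertible_mfderiv_extChartAt (I := 𝓘(ℝ, E)) hq
  exact h

lemma hat_contDiff {q₀ : M} {g : M → M} (hg : ContMDiff 𝓘(ℝ, E) 𝓘(ℝ, E) ∞ g) (h0 : g q₀ = q₀) :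
    ContDiffAt ℝ ∞ (hat q₀ g) (extChartAt 𝓘(ℝ, E) q₀ q₀) := by
  rw [← contMDiffAt_iff_contDiffAt]
  have hs := mem_extChartAt_source (I := 𝓘(ℝ, E)) q₀
  have h1 := md_symm (E := E) hs
  have h2 : ContMDiffAt 𝓘(ℝ, E) 𝓘(ℝ, E) ∞ (extChartAt 𝓘(ℝ, E) q₀)
      ((g ∘ (extChartAt 𝓘(ℝ, E) q₀).symm) (extChartAt 𝓘(ℝ, E) q₀ q₀)) := by
    have : (g ∘ (extChartAt 𝓘(ℝ, E) q₀).symm) (extChartAt 𝓘(ℝ, E) q₀ q₀) = q₀ := by
      show g ((extChartAt 𝓘(ℝ, E) q₀).symm (extChartAt 𝓘(ℝ, E) q₀ q₀)) = q₀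
      rw [symm_apply hs, h0]
    rw [this]
    exact md_chart hs
  exact ContMDiffAt.comp (extChartAt 𝓘(ℝ, E) q₀ q₀) h2
    (ContMDiffAt.comp (extChartAt 𝓘(ℝ, E) q₀ q₀) (hg _) h1)

/-- the derivative at a fixed point, in the chart at `q₀` -/
lemma chart_conj {q₀ q : M} {g : M → M} (hg : ContMDiff 𝓘(ℝ, E) 𝓘(ℝ, E) ∞ g) (h0 : g q = q)
    (hq : q ∈ (extChartAt 𝓘(ℝ, E) q₀).source) :
    (fderiv ℝ (hat q₀ g) (extChartAt 𝓘(ℝ, E) q₀ q)).comp (Cd q₀ q) = (Cd q₀ q).comp (Dm g q) := by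
  set e := extChartAt 𝓘(ℝ, E) q₀ with he
  have h1 := ((md_chart (E := E) hq).mdifferentiableAt (by simp)).hasMFDerivAt
  have h2 := (hg.mdifferentiableAt (x := q) (by simp)).hasMFDerivAt
  have h1' := ((md_chart (E := E) (q₀ := q₀) (q := g q) (by rw [h0]; exact hq)).mdifferentiableAt
    (by simp)).hasMFDerivAt
  have h3 := HasMFDerivAt.comp q h1' h2
  -- the other side
  have h4 : ContMDiffAt 𝓘(ℝ, E) 𝓘(ℝ, E) ∞ (hat q₀ g) (e q) := by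
    have h5 : ContMDiffAt 𝓘(ℝ, E) 𝓘(ℝ, E) ∞ e ((g ∘ e.symm) (e q)) := by
      have : (g ∘ e.symm) (e q) = q := by
        show g (e.symm (e q)) = q
        rw [he, symm_apply hq, h0]
      rw [this]
      exact md_chart hq
    exact ContMDiffAt.comp (e q) h5 (ContMDiffAt.comp (e q) (hg _) (md_symm hq))
  have h6 := (h4.mdifferentiableAt (by simp)).hasMFDerivAt
  rw [mfderiv_eq_fderiv] at h6
  have h7 := HasMFDerivAt.comp q h6 h1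
  have h8 : (e ∘ g) =ᶠ[𝓝 q] (hat q₀ g ∘ e) := by
    filter_upwards [source_mem hq] with z hz
    show e (g z) = e (g (e.symm (e z)))
    rw [he, symm_apply hz]
  have h9 := hasMFDerivAt_unique (h7.congr_of_eventuallyEq h8) h3
  have h10 : ∀ z : M, z = q → ∀ v : E, (mfderiv 𝓘(ℝ, E) 𝓘(ℝ, E) e z v : E) =
      mfderiv 𝓘(ℝ, E) 𝓘(ℝ, E) e q v := by rintro _ rfl v; rfl
  refine ContinuousLinearMap.ext fun v => ?_
  exact (DFunLike.congr_fun h9 v).trans (h10 _ h0 (Dm g q v))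

end Q71.WN
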