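import Mathlib
import Pool.Agent.Q71.WN.Chart

/-! The flow, the one-form and the vector field in a chart. -/

set_option autoImplicit false

open scoped Topology ContDiff Manifold
open Set Metric Bundle Pool.Agent.Helper186 Pool.Agent.H826R2.Wein

noncomputable section

namespace Q71.WN

set_option linter.unusedSectionVars false

universe u

variable {E : Type u} [NormedAddCommGroup E] [NormedSpace ℝ E] [FiniteDimensional ℝ E]
  {M : Type*} [TopologicalSpace M] [ChartedSpace E M] [IsManifold 𝓘(ℝ, E) ∞ M]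

/-- a vector field and its flow -/
structure FD (V : M → E) (Φ : ℝ → M → M) : Prop where
  flow : ContMDiff (𝓘(ℝ, ℝ).prod 𝓘(ℝ, E)) 𝓘(ℝ, E) ∞ (fun p : ℝ × M => Φ p.1 p.2)
  int : ∀ x, IsMIntegralCurve (I := 𝓘(ℝ, E)) (fun t => Φ t x)
    (fun x => (V x : TangentSpace 𝓘(ℝ, E) x))
  zero : ∀ x, Φ 0 x = x
  add : ∀ s t x, Φ (s + t) x = Φ s (Φ t x)

/-- the data: a one-form, a vector field `V` with `β(V) = 1` and its flow, which preserves `β` -/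
structure Dat (β : M → E →L[ℝ] ℝ) (V : M → E) (Φ : ℝ → M → M) : Prop extends FD V Φ where
  smooth : SmoothForm (I := 𝓘(ℝ, E)) (M := M) β
  unit : ∀ x, β x (V x) = 1
  strict : ∀ t x (u : E), β (Φ t x) (Dm (Φ t) x u) = β x u

variable {β : M → E →L[ℝ] ℝ} {V : M → E} {Φ : ℝ → M → M}

/-- the one-form in the chart at `q₀` -/
def ah (β : M → E →L[ℝ] ℝ) (q₀ : M) : E → E →L[ℝ] ℝ :=
  chartForm (M := M) 𝓘(ℝ, E) β q₀

/-- the flow in the chart at `q₀` -/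
def Psi (Φ : ℝ → M → M) (q₀ : M) (z : ℝ × E) : E :=
  extChartAt 𝓘(ℝ, E) q₀ (Φ z.1 ((extChartAt 𝓘(ℝ, E) q₀).symm z.2))

/-- the vector field in the chart at `q₀` -/
def Rh (Φ : ℝ → M → M) (q₀ : M) (x : E) : E := fderiv ℝ (Psi Φ q₀) (0, x) (1, 0)

namespace FD

variable (d : FD V Φ)
include d

lemma smooth_t (t : ℝ) : ContMDiff 𝓘(ℝ, E) 𝓘(ℝ, E) ∞ (Φ t) :=
  d.flow.comp (contMDiff_const.prodMk contMDiff_id)

lemma neg_add (t : ℝ) (x : M) : Φ (-t) (Φ t x) = x := by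
  rw [← d.add, neg_add_cancel, d.zero]

/-- the derivative of the flow is invertible -/
lemma det_flow_ne (t : ℝ) (x : M) : (Dm (E := E) (Φ t) x).det ≠ 0 := by
  have h1 := HasMFDerivAt.comp x (((d.smooth_t (-t)).mdifferentiableAt (x := Φ t x)
    (by simp)).hasMFDerivAt) (((d.smooth_t t).mdifferentiableAt (x := x) (by simp)).hasMFDerivAt)
  have h2 : (Φ (-t) ∘ Φ t) = id := by ext1 z; exact d.neg_add t z
  rw [h2] at h1
  have h3 := hasMFDerivAt_unique h1 (hasMFDerivAt_id x)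
  have h4 : (Dm (E := E) (Φ (-t)) (Φ t x)).comp (Dm (E := E) (Φ t) x) = ContinuousLinearMap.id ℝ E := h3
  intro h5
  have h6 : ((Dm (E := E) (Φ (-t)) (Φ t x)).comp (Dm (E := E) (Φ t) x)).det =
    (ContinuousLinearMap.id ℝ E).det := by rw [h4]
  have h7 : ((Dm (E := E) (Φ (-t)) (Φ t x)).comp (Dm (E := E) (Φ t) x)).det =
      (Dm (E := E) (Φ (-t)) (Φ t x)).det * (Dm (E := E) (Φ t) x).det := by
    show LinearMap.det (((Dm (E := E) (Φ (-t)) (Φ t x)) : E →ₗ[ℝ] E) ∘ₗ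
      (Dm (E := E) (Φ t) x : E →ₗ[ℝ] E)) = _
    rw [LinearMap.det_comp]
  rw [h7, h5, mul_zero] at h6
  have h8 : (ContinuousLinearMap.id ℝ E).det = 1 := by
    show LinearMap.det (LinearMap.id : E →ₗ[ℝ] E) = 1
    exact LinearMap.det_id
  rw [h8] at h6
  exact zero_ne_one h6

/-- the flow preserves the vector field -/
lemma push_V (t : ℝ) (x : M) : Dm (Φ t) x (V x) = V (Φ t x) := by
  have h1 := (d.int x 0)
  have h2 := HasMFDerivAt.comp (0:ℝ) (g := Φ t) (f := fun s => Φ s x)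
    (((d.smooth_t t).mdifferentiableAt (by simp)).hasMFDerivAt) h1
  have h3 := d.int (Φ t x) 0
  have h4 : (Φ t ∘ fun s => Φ s x) = fun s => Φ s (Φ t x) := by
    ext1 s
    show Φ t (Φ s x) = Φ s (Φ t x)
    rw [← d.add, ← d.add, add_comm]
  rw [h4] at h2
  have h5 := hasMFDerivAt_unique h2 h3
  have h6 := DFunLike.congr_fun h5 (1:ℝ)
  have e1 : ∀ z : M, z = x → (Dm (Φ t) z ((1:ℝ) • V z) : E) = Dm (Φ t) x (V x) := by
    rintro _ rfl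
    rw [one_smul]
  have e2 : ∀ z : M, z = Φ t x → (1:ℝ) • V z = V (Φ t x) := by
    rintro _ rfl
    rw [one_smul]
  exact (e1 _ (d.zero x)).symm.trans (h6.trans (e2 _ (d.zero _)))

lemma Psi_contDiff {q₀ q : M} (hq : q ∈ (extChartAt 𝓘(ℝ, E) q₀).source) :
    ContDiffAt ℝ ∞ (Psi Φ q₀) (0, extChartAt 𝓘(ℝ, E) q₀ q) := by
  rw [← contMDiffAt_iff_contDiffAt]
  have h1 : ContMDiffAt 𝓘(ℝ, ℝ × E) 𝓘(ℝ, E) ∞
      (fun z : ℝ × E => (extChartAt 𝓘(ℝ, E) q₀).symm z.2) (0, extChartAt 𝓘(ℝ, E) q₀ q) := by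
    refine ContMDiffAt.comp (0, extChartAt 𝓘(ℝ, E) q₀ q) (md_symm hq) ?_
    exact (contMDiffAt_iff_contDiffAt.2 contDiffAt_snd)
  have h2 : ContMDiffAt 𝓘(ℝ, ℝ × E) 𝓘(ℝ, ℝ) ∞
      (fun z : ℝ × E => z.1) (0, extChartAt 𝓘(ℝ, E) q₀ q) :=
    (contMDiffAt_iff_contDiffAt.2 contDiffAt_fst)
  have h3 : ContMDiffAt 𝓘(ℝ, ℝ × E) 𝓘(ℝ, E) ∞
      (fun z : ℝ × E => Φ z.1 ((extChartAt 𝓘(ℝ, E) q₀).symm z.2))
      (0, extChartAt 𝓘(ℝ, E) q₀ q) :=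
    (d.flow _).comp (0, extChartAt 𝓘(ℝ, E) q₀ q) (h2.prodMk h1)
  have h4 : ContMDiffAt 𝓘(ℝ, E) 𝓘(ℝ, E) ∞ (extChartAt 𝓘(ℝ, E) q₀)
      ((fun z : ℝ × E => Φ z.1 ((extChartAt 𝓘(ℝ, E) q₀).symm z.2))
      (0, extChartAt 𝓘(ℝ, E) q₀ q)) := by
    have : (fun z : ℝ × E => Φ z.1 ((extChartAt 𝓘(ℝ, E) q₀).symm z.2))
      (0, extChartAt 𝓘(ℝ, E) q₀ q) = q := by
      show Φ 0 ((extChartAt 𝓘(ℝ, E) q₀).symm (extChartAt 𝓘(ℝ, E) q₀ q)) = q
      rw [symm_apply hq, d.zero]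
    rw [this]
    exact md_chart hq
  exact ContMDiffAt.comp (0, extChartAt 𝓘(ℝ, E) q₀ q) h4 h3

/-- the vector field in the chart -/
lemma hasDerivAt_curve {q₀ q : M} (hq : q ∈ (extChartAt 𝓘(ℝ, E) q₀).source) :
    HasDerivAt (fun t => extChartAt 𝓘(ℝ, E) q₀ (Φ t q)) (Cd q₀ q (V q)) 0 := by
  have h1 := d.int q 0
  have h2 := HasMFDerivAt.comp (0:ℝ) (g := extChartAt 𝓘(ℝ, E) q₀) (f := fun s => Φ s q)
    (((md_chart (E := E) (q₀ := q₀) (q := Φ 0 q) (by rw [d.zero]; exact hq)).mdifferentiableAt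
    (by simp)).hasMFDerivAt) h1
  have h2' : HasFDerivAt (fun t => extChartAt 𝓘(ℝ, E) q₀ (Φ t q))
      ((Cd q₀ (Φ 0 q)).comp ((1 : ℝ →L[ℝ] ℝ).smulRight (V (Φ 0 q)))) 0 :=
    hasMFDerivAt_iff_hasFDerivAt.1 h2
  have h3 := h2'.hasDerivAt
  refine h3.congr_deriv ?_
  have e1 : ∀ z : M, z = q → (Cd q₀ z ((1:ℝ) • V z) : E) = Cd q₀ q (V q) := by
    rintro _ rfl
    rw [one_smul]
  exact e1 _ (d.zero q)

lemma Rh_eq {q₀ q : M} (hq : q ∈ (extChartAt 𝓘(ℝ, E) q₀).source) :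
    Rh Φ q₀ (extChartAt 𝓘(ℝ, E) q₀ q) = Cd q₀ q (V q) := by
  have h1 := ((d.Psi_contDiff hq).differentiableAt (by simp)).hasFDerivAt
  have h2 : HasDerivAt (fun t : ℝ => ((t, extChartAt 𝓘(ℝ, E) q₀ q) : ℝ × E)) (1, 0) 0 :=
    (hasDerivAt_id (0:ℝ)).prodMk (hasDerivAt_const _ _)
  have h3 := h1.comp_hasDerivAt (0:ℝ) h2
  have h4 : (Psi Φ q₀ ∘ fun t : ℝ => ((t, extChartAt 𝓘(ℝ, E) q₀ q) : ℝ × E)) =
      fun t => extChartAt 𝓘(ℝ, E) q₀ (Φ t q) := by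
    ext1 t
    show extChartAt 𝓘(ℝ, E) q₀ (Φ t ((extChartAt 𝓘(ℝ, E) q₀).symm _)) = _
    rw [symm_apply hq]
  rw [h4] at h3
  exact h3.unique (d.hasDerivAt_curve hq)

lemma Rh_continuousAt (q₀ : M) : ContinuousAt (Rh Φ q₀) (extChartAt 𝓘(ℝ, E) q₀ q₀) := by
  have h1 := d.Psi_contDiff (mem_extChartAt_source (I := 𝓘(ℝ, E)) q₀)
  have h2 : ContinuousAt (fderiv ℝ (Psi Φ q₀)) (0, extChartAt 𝓘(ℝ, E) q₀ q₀) :=
    (h1.fderiv_right (m := 0) (by simp)).continuousAt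
  have h3 : ContinuousAt (fun x : E => fderiv ℝ (Psi Φ q₀) ((0:ℝ), x))
      (extChartAt 𝓘(ℝ, E) q₀ q₀) :=
    ContinuousAt.comp (f := fun x : E => ((0:ℝ), x)) h2 (by fun_prop)
  exact h3.clm_apply continuousAt_const

end FD

namespace Dat

variable (d : Dat β V Φ)
include d

lemma ah_continuousAt (q₀ : M) : ContinuousAt (ah β q₀) (extChartAt 𝓘(ℝ, E) q₀ q₀) :=
  ((contDiffOn_chartForm d.smooth q₀).continuousOn).continuousAt
    ((isOpen_extChartAt_target q₀).mem_nhds (mem_extChartAt_target q₀))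

omit d in
lemma ah_eq {q₀ q : M} (hq : q ∈ (extChartAt 𝓘(ℝ, E) q₀).source) (u : E) :
    ah β q₀ (extChartAt 𝓘(ℝ, E) q₀ q) (Cd q₀ q u) = β q u := by
  have h1 := HasMFDerivAt.comp q (((md_symm (E := E) hq).mdifferentiableAt (by simp)).hasMFDerivAt)
    (((md_chart (E := E) hq).mdifferentiableAt (by simp)).hasMFDerivAt)
  have h2 : ((extChartAt 𝓘(ℝ, E) q₀).symm ∘ (extChartAt 𝓘(ℝ, E) q₀)) =ᶠ[𝓝 q] id := by
    filter_upwards [source_mem hq] with z hz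
    exact symm_apply hz
  have h3 := hasMFDerivAt_unique h1 ((hasMFDerivAt_id q).congr_of_eventuallyEq h2)
  have h4 := DFunLike.congr_fun h3 u
  have h5 : ∀ (z : M) (w : E), z = q → w = u → (β z w) = β q u := by
    rintro _ _ rfl rfl; rfl
  exact h5 _ _ (symm_apply hq) h4

end Dat

end Q71.WN
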