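import Mathlib
import Pool.Agent.Q71.WN.Field

/-! Nondegenerate fixed points of maps commuting with the flow: the determinant is constant along
orbit closures, and the common fixed point set is locally an orbit. -/

set_option autoImplicit false

open scoped Topology ContDiff Manifold
open Set Metric Filter Pool.Agent.Helper186 Pool.Agent.H826R2.Wein

noncomputable section

namespace Q71.WN

set_option linter.unusedSectionVars false

universe u

variable {E : Type u} [NormedAddCommGroup E] [NormedSpace ℝ E] [FiniteDimensional ℝ E]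
  {M : Type*} [TopologicalSpace M] [ChartedSpace E M] [IsManifold 𝓘(ℝ, E) ∞ M]
  {β : M → E →L[ℝ] ℝ} {V : M → E} {Φ : ℝ → M → M}
  {ι : Type*} (s : Finset ι) (c : ι → ℝ) (g : ι → M → M)

/-- the endomorphism `∑ cᵢ (Dgᵢ - 1) + β ⊗ V` -/
def Nq (β : M → E →L[ℝ] ℝ) (V : M → E) (q : M) : E →L[ℝ] E :=
  ∑ i ∈ s, c i • (Dm (g i) q - ContinuousLinearMap.id ℝ E) + (β q).smulRight (V q)

/-- the same in the chart at `q₀` -/
def Nh (β : M → E →L[ℝ] ℝ) (Φ : ℝ → M → M) (q₀ : M) (x : E) : E →L[ℝ] E :=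
  ∑ i ∈ s, c i • (fderiv ℝ (hat q₀ (g i)) x - ContinuousLinearMap.id ℝ E) +
    (ah β q₀ x).smulRight (Rh Φ q₀ x)

/-- the common fixed points -/
def Fx : Set M := {q | ∀ i ∈ s, g i q = q}

lemma det_comp' (A B : E →L[ℝ] E) : (A.comp B).det = A.det * B.det := by
  show LinearMap.det ((A : E →ₗ[ℝ] E) ∘ₗ (B : E →ₗ[ℝ] E)) = _
  rw [LinearMap.det_comp]

variable {s c g} (d : Dat β V Φ) (hg : ∀ i ∈ s, ContMDiff 𝓘(ℝ, E) 𝓘(ℝ, E) ∞ (g i))
  (hcom : ∀ i ∈ s, ∀ t x, g i (Φ t x) = Φ t (g i x))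

include d hg hcom in
lemma det_inv {q : M} (hq : q ∈ Fx s g) (t : ℝ) :
    (Nq s c g β V (Φ t q)).det = (Nq s c g β V q).det := by
  have h1 : (Nq s c g β V (Φ t q)).comp (Dm (E := E) (Φ t) q) =
      (Dm (E := E) (Φ t) q).comp (Nq s c g β V q) := by
    refine ContinuousLinearMap.ext fun u => ?_
    show Nq s c g β V (Φ t q) (Dm (E := E) (Φ t) q u) = Dm (E := E) (Φ t) q (Nq s c g β V q u)
    have e1 : Nq s c g β V (Φ t q) (Dm (E := E) (Φ t) q u) =
        ∑ i ∈ s, c i • (Dm (g i) (Φ t q) (Dm (E := E) (Φ t) q u) - Dm (E := E) (Φ t) q u) +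
          β (Φ t q) (Dm (E := E) (Φ t) q u) • V (Φ t q) := by
      simp [Nq]
    have e2 : Nq s c g β V q u =
        ∑ i ∈ s, c i • (Dm (g i) q u - u) + β q u • V q := by
      simp [Nq]
    rw [e1, e2, map_add, map_sum, map_smul, d.toFD.push_V, d.strict]
    congr 1
    refine Finset.sum_congr rfl fun i hi => ?_
    rw [map_smul, map_sub]
    congr 2
    -- the chain rule
    have h2 := HasMFDerivAt.comp q (((hg i hi).mdifferentiableAt (x := Φ t q)
      (by simp)).hasMFDerivAt) (((d.toFD.smooth_t t).mdifferentiableAt (x := q) (by simp)).hasMFDerivAt)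
    have h3 := HasMFDerivAt.comp q (((d.toFD.smooth_t t).mdifferentiableAt (x := g i q)
      (by simp)).hasMFDerivAt) (((hg i hi).mdifferentiableAt (x := q) (by simp)).hasMFDerivAt)
    have h4 : (g i ∘ Φ t) = (Φ t ∘ g i) := by ext1 z; exact hcom i hi t z
    rw [h4] at h2
    have h5 := hasMFDerivAt_unique h2 h3
    have h6 : ∀ (z : M) (w : E), z = q → Dm (E := E) (Φ t) z w = Dm (E := E) (Φ t) q w := by
      rintro _ _ rfl; rfl
    have h7 := DFunLike.congr_fun h5 u
    exact (show (Dm (E := E) (g i) (Φ t q)) (Dm (E := E) (Φ t) q u) =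
      Dm (E := E) (Φ t) (g i q) (Dm (E := E) (g i) q u) from h7).trans (h6 _ _ (hq i hi))
  have h2 := congrArg (fun A : E →L[ℝ] E => A.det) h1
  simp only [det_comp'] at h2
  have h3 := d.toFD.det_flow_ne t q
  rw [mul_comm] at h2
  exact mul_left_cancel₀ h3 h2

include d hg in
lemma det_chart {q₀ q : M} (hq : q ∈ (extChartAt 𝓘(ℝ, E) q₀).source) (hqF : q ∈ Fx s g) :
    (Nh s c g β Φ q₀ (extChartAt 𝓘(ℝ, E) q₀ q)).det = (Nq s c g β V q).det := by
  have h1 : (Nh s c g β Φ q₀ (extChartAt 𝓘(ℝ, E) q₀ q)).comp (Cd q₀ q) =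
      (Cd q₀ q).comp (Nq s c g β V q) := by
    refine ContinuousLinearMap.ext fun u => ?_
    show Nh s c g β Φ q₀ (extChartAt 𝓘(ℝ, E) q₀ q) (Cd q₀ q u) = Cd q₀ q (Nq s c g β V q u)
    have e1 : Nh s c g β Φ q₀ (extChartAt 𝓘(ℝ, E) q₀ q) (Cd q₀ q u) =
        ∑ i ∈ s, c i • (fderiv ℝ (hat q₀ (g i)) (extChartAt 𝓘(ℝ, E) q₀ q) (Cd q₀ q u) -
          Cd q₀ q u) +
          ah β q₀ (extChartAt 𝓘(ℝ, E) q₀ q) (Cd q₀ q u) • Rh Φ q₀ (extChartAt 𝓘(ℝ, E) q₀ q) := by
      simp [Nh]
    have e2 : Nq s c g β V q u =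
        ∑ i ∈ s, c i • (Dm (g i) q u - u) + β q u • V q := by
      simp [Nq]
    rw [e1, e2, map_add, map_sum, map_smul, Dat.ah_eq hq, d.toFD.Rh_eq hq]
    congr 1
    refine Finset.sum_congr rfl fun i hi => ?_
    rw [map_smul, map_sub]
    congr 2
    exact DFunLike.congr_fun (chart_conj (hg i hi) (hqF i hi) hq) u
  have h2 := congrArg (fun A : E →L[ℝ] E => A.det) h1
  simp only [det_comp'] at h2
  obtain ⟨L, hL⟩ := Cd_inv hq
  have h3 : (Cd (E := E) q₀ q).det ≠ 0 := by
    rw [← hL]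
    have h4 := det_comp' (E := E) (L.symm : E →L[ℝ] E) (L : E →L[ℝ] E)
    have h5 : ((L.symm : E →L[ℝ] E)).comp (L : E →L[ℝ] E) = ContinuousLinearMap.id ℝ E := by
      ext v; simp
    rw [h5] at h4
    have h6 : (ContinuousLinearMap.id ℝ E).det = 1 := by
      show LinearMap.det (LinearMap.id : E →ₗ[ℝ] E) = 1
      exact LinearMap.det_id
    rw [h6] at h4
    intro h7
    rw [h7, mul_zero] at h4
    exact one_ne_zero h4
  rw [mul_comm] at h2
  exact mul_left_cancel₀ h3 h2

include d hg in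
lemma Nh_continuousAt {q₀ : M} (hF : q₀ ∈ Fx s g) :
    ContinuousAt (Nh s c g β Φ q₀) (extChartAt 𝓘(ℝ, E) q₀ q₀) := by
  unfold Nh
  refine ContinuousAt.add ?_ ?_
  · refine tendsto_finsetSum _ fun i hi => ?_
    refine (ContinuousAt.sub ?_ continuousAt_const).const_smul (c i)
    exact ((hat_contDiff (hg i hi) (hF i hi)).fderiv_right (m := 0) (by simp)).continuousAt
  · have h1 := d.ah_continuousAt q₀
    have h2 := d.toFD.Rh_continuousAt q₀
    have h3 : Continuous fun p : (E →L[ℝ] ℝ) × E => p.1.smulRight p.2 := by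
      have := (ContinuousLinearMap.smulRightL ℝ E E).continuous₂
      exact this
    exact h3.continuousAt.comp (h1.prodMk h2)

lemma isClosed_Fx [T2Space M] (hc : ∀ i ∈ s, Continuous (g i)) : IsClosed (Fx s g) := by
  have : Fx s g = ⋂ i ∈ s, {q | g i q = q} := by ext q; simp [Fx]
  rw [this]
  exact isClosed_biInter fun i hi => isClosed_eq (hc i hi) continuous_id

include d hg hcom in
/-- the determinant on the closure of the orbit of a common fixed point -/
theorem det_closure [T2Space M] {p : M} (hp : p ∈ Fx s g) {q : M}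
    (hq : q ∈ closure (range fun t => Φ t p)) :
    q ∈ Fx s g ∧ (Nq s c g β V q).det = (Nq s c g β V p).det := by
  have hF : ∀ t, Φ t p ∈ Fx s g := fun t i hi => by rw [hcom i hi, hp i hi]
  have hqF : q ∈ Fx s g :=
    closure_minimal (by rintro _ ⟨t, rfl⟩; exact hF t)
      (isClosed_Fx fun i hi => (hg i hi).continuous) hq
  refine ⟨hqF, ?_⟩
  have h1 : ContinuousAt (fun z : M => (Nh s c g β Φ q (extChartAt 𝓘(ℝ, E) q z)).det) q := by
    have h2 := (Nh_continuousAt (c := c) d hg hqF)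
    have h3 : ContinuousAt (fun z => Nh s c g β Φ q (extChartAt 𝓘(ℝ, E) q z)) q :=
      ContinuousAt.comp (f := extChartAt 𝓘(ℝ, E) q) h2 (continuousAt_extChartAt q)
    exact ContinuousLinearMap.continuous_det.continuousAt.comp h3
  by_contra hne
  have h2 : (fun z : M => (Nh s c g β Φ q (extChartAt 𝓘(ℝ, E) q z)).det) q ≠
      (Nq s c g β V p).det := by
    show (Nh s c g β Φ q (extChartAt 𝓘(ℝ, E) q q)).det ≠ _
    rw [det_chart d hg (mem_extChartAt_source q) hqF]
    exact hne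
  have h3 := h1.eventually_ne h2
  obtain ⟨z, ⟨hz1, hz2⟩, ⟨t, rfl⟩⟩ := mem_closure_iff_nhds.1 hq _
    (Filter.inter_mem h3 (source_mem (E := E) (mem_extChartAt_source q)))
  apply hz1
  show (Nh s c g β Φ q (extChartAt 𝓘(ℝ, E) q (Φ t p))).det = _
  rw [det_chart d hg hz2 (hF t)]
  exact det_inv d hg hcom hp t

include d hg hcom in
/-- **Isolation**: near a nondegenerate common fixed point, the common fixed point set is contained
in the orbit. -/
theorem isolated {q : M} (hqF : q ∈ Fx s g) (hdet : (Nq s c g β V q).det ≠ 0) {δ : ℝ} (hδ : 0 < δ) :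
    ∃ U ∈ 𝓝 q, ∀ x ∈ Fx s g ∩ U, ∃ t : ℝ, |t| ≤ δ ∧ Φ t q = x := by
  set e := extChartAt 𝓘(ℝ, E) q with he
  have hqs : q ∈ e.source := mem_extChartAt_source q
  set x0 : E := e q with hx0
  set v : E := Rh Φ q x0 with hv
  set a0 : E →L[ℝ] ℝ := ah β q x0 with ha0
  have hN : (Nh s c g β Φ q x0).det ≠ 0 := by
    rw [hx0, he, det_chart d hg (mem_extChartAt_source q) hqF]
    exact hdet
  let L : E ≃L[ℝ] E := (Nh s c g β Φ q x0).toContinuousLinearEquivOfDetNeZero hN
  have hL : (L : E →L[ℝ] E) = Nh s c g β Φ q x0 :=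
    ContinuousLinearMap.coe_toContinuousLinearEquivOfDetNeZero _ hN
  let H : E → E := fun x => ∑ i ∈ s, c i • (hat q (g i) x - x) + (a0 (x - x0)) • v
  have hH : HasStrictFDerivAt H (L : E →L[ℝ] E) x0 := by
    rw [hL]
    have h1 : ∀ i ∈ s, HasStrictFDerivAt (fun x => c i • (hat q (g i) x - x))
        (c i • (fderiv ℝ (hat q (g i)) x0 - ContinuousLinearMap.id ℝ E)) x0 := fun i hi =>
      (((hat_contDiff (hg i hi) (hqF i hi)).hasStrictFDerivAt (by simp)).sub
        (hasStrictFDerivAt_id x0)).const_smul (c i)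
    have h2 : HasStrictFDerivAt (fun x : E => (a0 (x - x0)) • v) (a0.smulRight v) x0 := by
      have h3 : HasStrictFDerivAt (fun x : E => a0 (x - x0)) a0 x0 := by
        have h4 : HasStrictFDerivAt (fun x : E => a0 x - a0 x0) a0 x0 :=
          (a0.hasStrictFDerivAt (x := x0)).sub_const (a0 x0)
        have h5 : (fun x : E => a0 (x - x0)) = fun x : E => a0 x - a0 x0 := by
          ext1 x; rw [map_sub]
        rw [h5]; exact h4
      have h5 := h3.smul_const v
      exact h5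
    exact (HasStrictFDerivAt.fun_sum h1).add h2
  let T := hH.toOpenPartialHomeomorph H
  have hTs : T.source ∈ 𝓝 x0 := T.open_source.mem_nhds hH.mem_toOpenPartialHomeomorph_source
  have hTi : ∀ x ∈ T.source, ∀ y ∈ T.source, H x = H y → x = y := fun x hx y hy h =>
    T.injOn hx hy h
  -- values of `H` on the fixed point set
  have hval : ∀ z ∈ e.source, z ∈ Fx s g → H (e z) = a0 (e z - x0) • v := by
    intro z hz hzF
    show ∑ i ∈ s, c i • (hat q (g i) (e z) - e z) + (a0 (e z - x0)) • v = _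
    have h1 : ∑ i ∈ s, c i • (hat q (g i) (e z) - e z) = 0 := by
      refine Finset.sum_eq_zero fun i hi => ?_
      have h2 : hat q (g i) (e z) = e z := by
        show e (g i (e.symm (e z))) = e z
        rw [e.left_inv hz, hzF i hi]
      rw [h2, sub_self, smul_zero]
    rw [h1, zero_add]
  -- the orbit of `q`
  have hcurve : HasDerivAt (fun t => e (Φ t q)) (Cd q q (V q)) 0 := d.toFD.hasDerivAt_curve hqs
  have hφ : HasDerivAt (fun t => a0 (e (Φ t q) - x0)) 1 0 := by
    have h1 := a0.hasFDerivAt (x := e (Φ 0 q) - x0)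
    have h2 := h1.comp_hasDerivAt (0:ℝ) (hcurve.sub_const x0)
    have h3 : a0 (Cd q q (V q)) = 1 := by
      rw [ha0, hx0, he, Dat.ah_eq (mem_extChartAt_source q), d.unit]
    rw [h3] at h2
    exact h2
  have hcont : Continuous fun t => Φ t q :=
    d.flow.continuous.comp (continuous_id.prodMk continuous_const)
  have h0q : Φ 0 q = q := d.zero q
  have hev1 : ∀ᶠ t in 𝓝 (0:ℝ), Φ t q ∈ e.source := by
    refine hcont.continuousAt.eventually_mem ?_
    rw [h0q]; exact source_mem hqs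
  have hev2 : ∀ᶠ t in 𝓝 (0:ℝ), e (Φ t q) ∈ T.source := by
    refine hcurve.continuousAt.eventually_mem ?_
    rw [h0q]; exact hTs
  have hev3 : ∀ᶠ t in 𝓝 (0:ℝ), |a0 (e (Φ t q) - x0) - t| ≤ 1 / 2 * |t| := by
    have h1 := hφ.isLittleO.bound (c := 1 / 2) (by norm_num)
    filter_upwards [h1] with t ht
    have h2 : a0 (e (Φ 0 q) - x0) = 0 := by rw [h0q, sub_self, map_zero]
    rw [h2] at ht
    simpa using ht
  obtain ⟨η, hη, hη2⟩ := Metric.eventually_nhds_iff.1 (hev1.and (hev2.and hev3))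
  set t1 : ℝ := min δ (η / 2) with ht1
  have ht1p : 0 < t1 := lt_min hδ (by positivity)
  have ht1η : t1 < η := lt_of_le_of_lt (min_le_right _ _) (by linarith)
  have hin : ∀ t ∈ Icc (-t1) t1, Φ t q ∈ e.source ∧ e (Φ t q) ∈ T.source ∧
      |a0 (e (Φ t q) - x0) - t| ≤ 1 / 2 * |t| := by
    intro t ht
    apply hη2
    rw [Real.dist_eq, sub_zero]
    exact lt_of_le_of_lt (abs_le.2 ht) ht1η
  have hcφ : ContinuousOn (fun t => a0 (e (Φ t q) - x0)) (Icc (-t1) t1) := by
    refine a0.continuous.comp_continuousOn ?_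
    refine ContinuousOn.sub ?_ continuousOn_const
    exact (continuousOn_extChartAt q).comp hcont.continuousOn fun t ht => (hin t ht).1
  have hup : t1 / 2 ≤ a0 (e (Φ t1 q) - x0) := by
    have h1 := (hin t1 ⟨by linarith, le_rfl⟩).2.2
    rw [abs_of_pos ht1p] at h1
    have h2 := (abs_le.1 h1).1
    linarith
  have hlo : a0 (e (Φ (-t1) q) - x0) ≤ -(t1 / 2) := by
    have h1 := (hin (-t1) ⟨le_rfl, by linarith⟩).2.2
    rw [abs_neg, abs_of_pos ht1p] at h1
    have h2 := (abs_le.1 h1).2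
    linarith
  have hIVT := intermediate_value_Icc (show -t1 ≤ t1 by linarith) hcφ
  refine ⟨e.source ∩ (e ⁻¹' T.source) ∩ {z | |a0 (e z - x0)| < t1 / 2}, ?_, ?_⟩
  · have hce : ContinuousAt e q := continuousAt_extChartAt q
    refine Filter.inter_mem (Filter.inter_mem (source_mem hqs) (hce hTs)) ?_
    have h1 : ContinuousAt (fun z => |a0 (e z - x0)|) q :=
      (a0.continuous.continuousAt.comp (hce.sub continuousAt_const)).abs
    refine h1.eventually_lt_const ?_
    show |a0 (e q - x0)| < t1 / 2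
    rw [← hx0, sub_self, map_zero, abs_zero]
    positivity
  · rintro z ⟨hzF, ⟨hz1, hz2⟩, hz3⟩
    have h1 := abs_lt.1 (show |a0 (e z - x0)| < t1 / 2 from hz3)
    obtain ⟨t, ht, ht2⟩ := hIVT ⟨hlo.trans h1.1.le, h1.2.le.trans hup⟩
    refine ⟨t, (abs_le.2 ht).trans (min_le_left _ _), ?_⟩
    have hΦF : Φ t q ∈ Fx s g := fun i hi => by rw [hcom i hi, hqF i hi]
    have h2 : H (e (Φ t q)) = H (e z) := by
      rw [hval _ (hin t ht).1 hΦF, hval z hz1 hzF]
      exact congrArg (fun r : ℝ => r • v) ht2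
    exact e.injOn (hin t ht).1 hz1 (hTi _ (hin t ht).2.1 _ hz2 h2)

include d hg hcom in
/-- **The orbit of a nondegenerate common fixed point is periodic.** -/
theorem periodic [T2Space M] [CompactSpace M] {p : M} (hp : p ∈ Fx s g)
    (hdet : (Nq s c g β V p).det ≠ 0) : ∃ T : ℝ, 0 < T ∧ Φ T p = p := by
  refine periodic_of_isolated Φ d.add d.zero (Fx s g) p
    (fun t i hi => by rw [hcom i hi, hp i hi]) ?_
  intro q hq
  obtain ⟨h1, h2⟩ := det_closure (c := c) d hg hcom hp hq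
  exact isolated (c := c) d hg hcom h1 (by rw [h2]; exact hdet) (by norm_num)

end Q71.WN
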