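import Mathlib
import Pool.Agent.Q71.WN.Iso

/-! The linearisation of the contact vector field of a first integral at a critical point. -/

set_option autoImplicit false

open scoped Topology ContDiff Manifold
open Set Metric Filter Pool.Agent.Helper186 Pool.Agent.H826R2.Wein

noncomputable section

namespace Q71.WN

set_option linter.unusedSectionVars false

universe u

variable {E : Type u} [NormedAddCommGroup E] [NormedSpace ℝ E] [FiniteDimensional ℝ E]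
  {M : Type*} [TopologicalSpace M] [ChartedSpace E M] [IsManifold 𝓘(ℝ, E) ∞ M]
  {β : M → E →L[ℝ] ℝ} {R : M → E}

/-- `β ⊗ β + dβ` in the chart -/
def Bh (β : M → E →L[ℝ] ℝ) (p : M) (x a b : E) : ℝ :=
  ah β p x a * ah β p x b + (fderiv ℝ (ah β p) x a b - fderiv ℝ (ah β p) x b a)

/-- the derivative of the inverse chart -/
def Sd (q₀ : M) (y : E) : E →L[ℝ] E :=
  mfderiv 𝓘(ℝ, E) 𝓘(ℝ, E) (extChartAt 𝓘(ℝ, E) q₀).symm y

lemma symm_Cd {q₀ q : M} (hq : q ∈ (extChartAt 𝓘(ℝ, E) q₀).source) (a : E) :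
    Sd q₀ (extChartAt 𝓘(ℝ, E) q₀ q) (Cd q₀ q a) = a := by
  have h1 := HasMFDerivAt.comp q (((md_symm (E := E) hq).mdifferentiableAt (by simp)).hasMFDerivAt)
    (((md_chart (E := E) hq).mdifferentiableAt (by simp)).hasMFDerivAt)
  have h2 : ((extChartAt 𝓘(ℝ, E) q₀).symm ∘ (extChartAt 𝓘(ℝ, E) q₀)) =ᶠ[𝓝 q] id := by
    filter_upwards [source_mem hq] with z hz
    exact symm_apply hz
  have h3 := hasMFDerivAt_unique h1 ((hasMFDerivAt_id q).congr_of_eventuallyEq h2)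
  exact DFunLike.congr_fun h3 a

lemma ah_diff (hβ : SmoothForm (I := 𝓘(ℝ, E)) (M := M) β) (p : M) {y : E}
    (hy : y ∈ (extChartAt 𝓘(ℝ, E) p).target) : ContDiffAt ℝ ∞ (ah β p) y :=
  (contDiffOn_chartForm hβ p).contDiffAt ((isOpen_extChartAt_target p).mem_nhds hy)

lemma extDer_chart (hβ : SmoothForm (I := 𝓘(ℝ, E)) (M := M) β) {p q : M}
    (hq : q ∈ (extChartAt 𝓘(ℝ, E) p).source) (a b : E) :
    extDer (M := M) 𝓘(ℝ, E) β q a b =
      fderiv ℝ (ah β p) (extChartAt 𝓘(ℝ, E) p q) (Cd p q a) (Cd p q b) -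
      fderiv ℝ (ah β p) (extChartAt 𝓘(ℝ, E) p q) (Cd p q b) (Cd p q a) := by
  have hy := (extChartAt 𝓘(ℝ, E) p).map_source hq
  have h3 := extDer_pullback hβ (isOpen_extChartAt_target p) (contMDiffOn_extChartAt_symm p) hy
    (Cd p q a) (Cd p q b)
  have h4 : ∀ (z : M) (w w' : E), z = q → w = a → w' = b →
      extDer (M := M) 𝓘(ℝ, E) β z w w' = extDer (M := M) 𝓘(ℝ, E) β q a b := by
    rintro _ _ _ rfl rfl rfl; rfl
  have h5 := h4 _ _ _ (symm_apply hq) (symm_Cd hq a) (symm_Cd hq b)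
  rw [← h5]
  refine h3.trans ?_
  have hd : DifferentiableAt ℝ (ah β p) (extChartAt 𝓘(ℝ, E) p q) :=
    (ah_diff hβ p hy).differentiableAt (by simp)
  have h6 : ∀ c d : E, fderiv ℝ (fun x => ah β p x d) (extChartAt 𝓘(ℝ, E) p q) c =
      fderiv ℝ (ah β p) (extChartAt 𝓘(ℝ, E) p q) c d := by
    intro c d
    have h7 : HasFDerivAt (fun x => ah β p x d)
        ((ContinuousLinearMap.apply ℝ ℝ d).comp (fderiv ℝ (ah β p) (extChartAt 𝓘(ℝ, E) p q)))
        (extChartAt 𝓘(ℝ, E) p q) :=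
      (ContinuousLinearMap.apply ℝ ℝ d).hasFDerivAt.comp _ hd.hasFDerivAt
    rw [h7.fderiv]
    rfl
  exact congrArg₂ (fun r s : ℝ => r - s) (h6 _ _) (h6 _ _)

lemma HB_chart (hβ : SmoothForm (I := 𝓘(ℝ, E)) (M := M) β) {p q : M}
    (hq : q ∈ (extChartAt 𝓘(ℝ, E) p).source) (a b : E) :
    HB (P := M) β q a b = Bh β p (extChartAt 𝓘(ℝ, E) p q) (Cd p q a) (Cd p q b) := by
  have h1 := HB_apply (P := M) (β := β) q a b
  rw [h1]
  unfold Bh
  rw [Dat.ah_eq hq, Dat.ah_eq hq]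
  congr 1
  exact extDer_chart hβ hq a b

lemma two_le : (1:WithTop ℕ∞) + 1 ≤ ∞ := by
  have : ((2:ℕ∞) : WithTop ℕ∞) ≤ ((⊤ : ℕ∞) : WithTop ℕ∞) := WithTop.coe_le_coe.2 le_top
  exact this

/-- product rule at a zero -/
lemma clm_zero {F : Type*} [NormedAddCommGroup F] [NormedSpace ℝ F] {T : E → E →L[ℝ] F} {X : E → E}
    {X' : E →L[ℝ] E} {x0 : E} (hT : DifferentiableAt ℝ T x0) (hX : HasFDerivAt X X' x0)
    (h0 : X x0 = 0) : HasFDerivAt (fun x => T x (X x)) ((T x0).comp X') x0 := by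
  have h1 := hT.hasFDerivAt.clm_apply hX
  rw [h0] at h1
  refine h1.congr_fderiv ?_
  ext u
  simp

/-- the function `f` in the chart at `p` -/
def fh (p : M) (f : M → ℝ) : E → ℝ := f ∘ (extChartAt 𝓘(ℝ, E) p).symm

lemma fh_diff {p q : M} {f : M → ℝ} (hf : ContMDiff 𝓘(ℝ, E) 𝓘(ℝ, ℝ) ∞ f)
    (hq : q ∈ (extChartAt 𝓘(ℝ, E) p).source) :
    ContDiffAt ℝ ∞ (fh (E := E) p f) (extChartAt 𝓘(ℝ, E) p q) := by
  rw [← contMDiffAt_iff_contDiffAt]
  exact ContMDiffAt.comp (extChartAt 𝓘(ℝ, E) p q) (hf _) (md_symm hq)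

lemma dForm_chart {p q : M} {f : M → ℝ} (hf : ContMDiff 𝓘(ℝ, E) 𝓘(ℝ, ℝ) ∞ f)
    (hq : q ∈ (extChartAt 𝓘(ℝ, E) p).source) (w : E) :
    dForm 𝓘(ℝ, E) f q w = fderiv ℝ (fh (E := E) p f) (extChartAt 𝓘(ℝ, E) p q) (Cd p q w) := by
  have h1 : ContMDiffAt 𝓘(ℝ, E) 𝓘(ℝ, ℝ) ∞ (fh (E := E) p f) (extChartAt 𝓘(ℝ, E) p q) :=
    ContMDiffAt.comp (extChartAt 𝓘(ℝ, E) p q) (hf _) (md_symm hq)
  have h2 := (h1.mdifferentiableAt (by simp)).hasMFDerivAt
  rw [mfderiv_eq_fderiv] at h2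
  have h3 := HasMFDerivAt.comp q h2
    (((md_chart (E := E) hq).mdifferentiableAt (by simp)).hasMFDerivAt)
  have h4 : f =ᶠ[𝓝 q] (fh (E := E) p f) ∘ (extChartAt 𝓘(ℝ, E) p) := by
    filter_upwards [source_mem (E := E) hq] with z hz
    show f z = f ((extChartAt 𝓘(ℝ, E) p).symm (extChartAt 𝓘(ℝ, E) p z))
    rw [symm_apply hz]
  have h5 := h3.congr_of_eventuallyEq h4
  have h6 := hasMFDerivAt_unique ((hf.mdifferentiableAt (x := q) (by simp)).hasMFDerivAt) h5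
  exact DFunLike.congr_fun h6 w

section

variable {c : CD (P := M) β R} {f : M → ℝ} {G : ℝ → M → M}
  (dG : FD (fun x => (c.X f x : E)) G) (hf : ContMDiff 𝓘(ℝ, E) 𝓘(ℝ, ℝ) ∞ f)

include dG hf in
lemma ident (p : M) {x : E} (hx : x ∈ (extChartAt 𝓘(ℝ, E) p).target) (v : E) :
    Bh β p x (Rh G p x) v = fh (E := E) p f x * ah β p x v - fderiv ℝ (fh (E := E) p f) x v := by
  obtain ⟨q, hq, rfl⟩ : ∃ q ∈ (extChartAt 𝓘(ℝ, E) p).source, extChartAt 𝓘(ℝ, E) p q = x :=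
    ⟨(extChartAt 𝓘(ℝ, E) p).symm x, (extChartAt 𝓘(ℝ, E) p).map_target hx,
      (extChartAt 𝓘(ℝ, E) p).right_inv hx⟩
  obtain ⟨L, hL⟩ := Cd_inv (E := E) hq
  obtain ⟨w, rfl⟩ : ∃ w, Cd p q w = v := ⟨L.symm v, by rw [← hL]; simp⟩
  have h1 := c.X_spec f q w
  rw [dG.Rh_eq hq, Dat.ah_eq hq, ← dForm_chart hf hq]
  have h2 : fh (E := E) p f (extChartAt 𝓘(ℝ, E) p q) = f q := by
    show f ((extChartAt 𝓘(ℝ, E) p).symm (extChartAt 𝓘(ℝ, E) p q)) = f q
    rw [symm_apply hq]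
  rw [h2]
  refine Eq.trans ?_ h1
  exact (HB_chart c.contact.smooth hq (c.X f q) w).symm

include dG in
lemma Rh_diff (p : M) : DifferentiableAt ℝ (Rh G p) (extChartAt 𝓘(ℝ, E) p p) := by
  have h1 := dG.Psi_contDiff (mem_extChartAt_source (I := 𝓘(ℝ, E)) p)
  have h2 : DifferentiableAt ℝ (fderiv ℝ (Psi G p)) (0, extChartAt 𝓘(ℝ, E) p p) :=
    (h1.fderiv_right (m := 1) two_le).differentiableAt one_ne_zero
  have h3 : DifferentiableAt ℝ (fun x : E => fderiv ℝ (Psi G p) ((0:ℝ), x))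
      (extChartAt 𝓘(ℝ, E) p p) :=
    DifferentiableAt.comp (f := fun x : E => ((0:ℝ), x)) _ h2 (by fun_prop)
  exact h3.clm_apply (differentiableAt_const _)

include dG hf in
/-- **The linearisation**: `(β ⊗ β + dβ)(A u, v) = - Hess f (u, v)`. -/
lemma linear {p : M} (h0 : f p = 0) (h1 : ∀ v : E, dForm 𝓘(ℝ, E) f p v = 0) (u v : E) :
    Bh β p (extChartAt 𝓘(ℝ, E) p p) (fderiv ℝ (Rh G p) (extChartAt 𝓘(ℝ, E) p p) u) v =
      - fderiv ℝ (fderiv ℝ (fh (E := E) p f)) (extChartAt 𝓘(ℝ, E) p p) u v := by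
  set x0 := extChartAt 𝓘(ℝ, E) p p with hx0
  have hps : p ∈ (extChartAt 𝓘(ℝ, E) p).source := mem_extChartAt_source p
  have hpt : x0 ∈ (extChartAt 𝓘(ℝ, E) p).target := mem_extChartAt_target p
  have hX0 : Rh G p x0 = 0 := by
    rw [hx0, dG.Rh_eq hps]
    have h2 : (0 : TangentSpace 𝓘(ℝ, E) p) = c.X f p := by
      apply c.X_unique
      intro w
      have e1 : HB (P := M) β p 0 w = 0 := by
        exact congrArg (fun A : E →L[ℝ] ℝ => A w) (map_zero (HB (P := M) β p))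
      refine e1.trans ?_
      rw [h0, zero_mul, zero_sub]
      exact (neg_eq_zero.2 (h1 w)).symm
    have h3 : (c.X f p : E) = 0 := h2.symm
    exact (congrArg (fun w : E => Cd p p w) h3).trans (map_zero (Cd p p))
  have hX := (Rh_diff dG p).hasFDerivAt
  rw [← hx0] at hX
  set X' := fderiv ℝ (Rh G p) x0 with hX'
  have ha := ah_diff c.contact.smooth p hpt
  have ha1 : DifferentiableAt ℝ (ah β p) x0 := ha.differentiableAt (by simp)
  have ha2 : DifferentiableAt ℝ (fderiv ℝ (ah β p)) x0 :=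
    (ha.fderiv_right (m := 1) two_le).differentiableAt one_ne_zero
  have k1 := clm_zero ha1 hX hX0
  have k2 : HasFDerivAt (fun x => ah β p x v) (fderiv ℝ (fun x => ah β p x v) x0) x0 :=
    (ha1.clm_apply (differentiableAt_const v)).hasFDerivAt
  have k3 := k1.mul k2
  have k4 := clm_zero ha2 hX hX0
  have k5 : HasFDerivAt (fun x => fderiv ℝ (ah β p) x (Rh G p x) v)
      ((ContinuousLinearMap.apply ℝ ℝ v).comp ((fderiv ℝ (ah β p) x0).comp X')) x0 :=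
    (ContinuousLinearMap.apply ℝ ℝ v).hasFDerivAt.comp x0 k4
  have k6 : DifferentiableAt ℝ (fun x => fderiv ℝ (ah β p) x v) x0 :=
    ha2.clm_apply (differentiableAt_const v)
  have k7 := clm_zero k6 hX hX0
  have k8 := k3.add (k5.sub k7)
  -- the right hand side
  have hf1 := fh_diff hf hps
  rw [← hx0] at hf1
  have m1 : HasFDerivAt (fh (E := E) p f) (fderiv ℝ (fh (E := E) p f) x0) x0 :=
    (hf1.differentiableAt (by simp)).hasFDerivAt
  have hf0 : fh (E := E) p f x0 = 0 := by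
    show f ((extChartAt 𝓘(ℝ, E) p).symm (extChartAt 𝓘(ℝ, E) p p)) = 0
    rw [symm_apply hps, h0]
  have hdf0 : fderiv ℝ (fh (E := E) p f) x0 = 0 := by
    ext w
    have h3 := dForm_chart hf hps w
    rw [h1 w, Cd_self] at h3
    exact h3.symm
  have m2 := m1.mul k2
  have m3 : DifferentiableAt ℝ (fderiv ℝ (fh (E := E) p f)) x0 :=
    (hf1.fderiv_right (m := 1) two_le).differentiableAt one_ne_zero
  have m4 : HasFDerivAt (fun x => fderiv ℝ (fh (E := E) p f) x v)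
      ((ContinuousLinearMap.apply ℝ ℝ v).comp (fderiv ℝ (fderiv ℝ (fh (E := E) p f)) x0)) x0 :=
    (ContinuousLinearMap.apply ℝ ℝ v).hasFDerivAt.comp x0 m3.hasFDerivAt
  have m5 := m2.sub m4
  have hev : (fun x => ah β p x (Rh G p x) * ah β p x v + (fderiv ℝ (ah β p) x (Rh G p x) v -
      fderiv ℝ (ah β p) x v (Rh G p x))) =ᶠ[𝓝 x0] (fun x => fh (E := E) p f x * ah β p x v -
      fderiv ℝ (fh (E := E) p f) x v) := by
    filter_upwards [(isOpen_extChartAt_target p).mem_nhds hpt] with x hx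
    exact ident dG hf p hx v
  have h5 := k8.unique (m5.congr_of_eventuallyEq hev)
  have h6 := DFunLike.congr_fun h5 u
  have hz : ah β p x0 (Rh G p x0) = 0 := by rw [hX0, map_zero]
  simp only [hf0, hdf0, hz] at h6
  unfold Bh
  simp at h6
  linarith [h6]

end

end Q71.WN
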