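import Mathlib
import Pool.Agent.Q71.WN.Hess

/-! The derivative of the flow of a vector field at a zero, for small times. -/

set_option autoImplicit false

open scoped Topology ContDiff Manifold
open Set Metric Filter Pool.Agent.Helper186 Pool.Agent.H826R2.Wein

noncomputable section

namespace Q71.WN

set_option linter.unusedSectionVars false

universe u

variable {E : Type u} [NormedAddCommGroup E] [NormedSpace ℝ E] [FiniteDimensional ℝ E]
  {M : Type*} [TopologicalSpace M] [ChartedSpace E M] [IsManifold 𝓘(ℝ, E) ∞ M]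
  {β : M → E →L[ℝ] ℝ} {R : M → E} {V : M → E} {G : ℝ → M → M}

lemma Dm_eq (dG : FD V G) {p : M} (hfix : ∀ s, G s p = p) (s : ℝ) (u : E) :
    Dm (G s) p u = fderiv ℝ (fun x => Psi G p (s, x)) (extChartAt 𝓘(ℝ, E) p p) u := by
  have h1 := chart_conj (q₀ := p) (dG.smooth_t s) (hfix s) (mem_extChartAt_source p)
  rw [Cd_self] at h1
  exact (DFunLike.congr_fun h1 u).symm

/-- **Derivative of the linearised flow at time zero.** -/
lemma hasDerivAt_Dm (dG : FD V G) {p : M} (hfix : ∀ s, G s p = p) (u : E) :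
    HasDerivAt (fun s => Dm (G s) p u) (fderiv ℝ (Rh G p) (extChartAt 𝓘(ℝ, E) p p) u) 0 := by
  set x0 := extChartAt 𝓘(ℝ, E) p p with hx0
  have h1 := dG.Psi_contDiff (mem_extChartAt_source (I := 𝓘(ℝ, E)) p)
  rw [← hx0] at h1
  have h2 : DifferentiableAt ℝ (fderiv ℝ (Psi G p)) (0, x0) :=
    (h1.fderiv_right (m := 1) two_le).differentiableAt one_ne_zero
  have hsymm : IsSymmSndFDerivAt ℝ (Psi G p) (0, x0) :=
    h1.isSymmSndFDerivAt (by
      rw [minSmoothness_of_isRCLikeNormedField]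
      exact one_add_one_eq_two (R := WithTop ℕ∞) ▸ two_le)
  -- the derivative of the field
  have h3 : fderiv ℝ (Rh G p) x0 u = fderiv ℝ (fderiv ℝ (Psi G p)) (0, x0) (0, u) (1, 0) := by
    have k1 : HasFDerivAt (fun x : E => ((0:ℝ), x)) (ContinuousLinearMap.inr ℝ ℝ E) x0 :=
      (ContinuousLinearMap.inr ℝ ℝ E).hasFDerivAt
    have k2 := h2.hasFDerivAt.comp x0 k1
    have k3 := k2.clm_apply (hasFDerivAt_const ((1:ℝ), (0:E)) x0)
    have k4 : HasFDerivAt (Rh G p) _ x0 := k3
    rw [k4.fderiv]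
    simp
  rw [h3, ← hsymm]
  -- the derivative in time
  have k1 : HasDerivAt (fun s : ℝ => ((s, x0) : ℝ × E)) (1, 0) 0 :=
    (hasDerivAt_id (0:ℝ)).prodMk (hasDerivAt_const _ _)
  have k2 := h2.hasFDerivAt.comp_hasDerivAt (0:ℝ) k1
  have k3 := k2.clm_apply (hasDerivAt_const (0:ℝ) ((0:ℝ), u))
  have k4 : HasDerivAt (fun s : ℝ => fderiv ℝ (Psi G p) (s, x0) (0, u))
      (fderiv ℝ (fderiv ℝ (Psi G p)) (0, x0) (1, 0) (0, u)) 0 := by
    refine k3.congr_deriv ?_
    simp
  refine k4.congr_of_eventuallyEq ?_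
  have h5 : ∀ᶠ z in 𝓝 ((0:ℝ), x0), DifferentiableAt ℝ (Psi G p) z := by
    have := h1.of_le (m := 1) (by exact le_trans (by norm_num) two_le)
    exact (this.eventually (by simp)).mono fun z hz => hz.differentiableAt one_ne_zero
  have h6 : ContinuousAt (fun s : ℝ => ((s, x0) : ℝ × E)) 0 := by fun_prop
  filter_upwards [h6.eventually h5] with s hs
  rw [Dm_eq dG hfix]
  have k5 : HasFDerivAt (fun x : E => (s, x)) (ContinuousLinearMap.inr ℝ ℝ E) x0 := by
    have := (hasFDerivAt_const (𝕜 := ℝ) s x0).prodMk (hasFDerivAt_id (𝕜 := ℝ) x0)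
    exact this
  have k6 := hs.hasFDerivAt.comp x0 k5
  have k7 : HasFDerivAt (fun x => Psi G p (s, x)) _ x0 := k6
  rw [k7.fderiv]
  rfl

lemma det_ne_of_inj {N : E →L[ℝ] E} (h : ∀ u, N u = 0 → u = 0) : N.det ≠ 0 := by
  intro h0
  have h1 := LinearMap.bot_lt_ker_of_det_eq_zero (f := (N : E →ₗ[ℝ] E)) h0
  apply h1.ne'
  rw [LinearMap.ker_eq_bot']
  exact h

/-- For small nonzero times the time `s` map of the flow of the contact vector field of a first
integral is nondegenerate at a nondegenerate critical point. -/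
theorem exists_time {c : CD (P := M) β R} {f : M → ℝ}
    (dG : FD (fun x => (c.X f x : E)) G) (hf : ContMDiff 𝓘(ℝ, E) 𝓘(ℝ, ℝ) ∞ f) {p : M}
    (hfix : ∀ s, G s p = p) (hstrict : ∀ s (u : E), β p (Dm (G s) p u) = β p u)
    (h0 : f p = 0) (h1 : ∀ v : E, dForm 𝓘(ℝ, E) f p v = 0)
    (hnd : ∀ u, β p u = 0 → (∀ v, β p v = 0 →
      fderiv ℝ (fderiv ℝ (fh (E := E) p f)) (extChartAt 𝓘(ℝ, E) p p) u v = 0) → u = 0) :
    ∃ s : ℝ, (Nq ({()} : Finset Unit) (fun _ => s⁻¹) (fun _ => G s) β R p).det ≠ 0 := by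
  set x0 := extChartAt 𝓘(ℝ, E) p p with hx0
  set X' := fderiv ℝ (Rh G p) x0 with hX'
  -- the limit
  let N0 : E →L[ℝ] E := X' + (β p).smulRight (R p)
  have hβX : ∀ u, β p (X' u) = 0 := by
    intro u
    have k1 := (β p).hasFDerivAt.comp_hasDerivAt (0:ℝ) (hasDerivAt_Dm dG hfix u)
    have k2 : (β p ∘ fun s => Dm (G s) p u) = fun _ => β p u := by
      ext1 s; exact hstrict s u
    rw [k2] at k1
    exact k1.unique (hasDerivAt_const _ _)
  have hN0 : N0.det ≠ 0 := by
    apply det_ne_of_inj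
    intro u hu
    have e1 : X' u + β p u • R p = 0 := hu
    have e2 := congrArg (β p) e1
    rw [map_add, map_smul, hβX, map_zero, zero_add] at e2
    have e3 : β p (R p) = 1 := c.reeb.unit p
    rw [e3, smul_eq_mul, mul_one] at e2
    rw [e2, zero_smul, add_zero] at e1
    apply hnd u e2
    intro v _
    have e4 := linear dG hf h0 h1 u v
    rw [← hx0, ← hX', e1] at e4
    unfold Bh at e4
    simp only [map_zero, zero_mul, zero_apply, sub_self, add_zero] at e4
    linarith
  have hlim : Tendsto (fun s : ℝ =>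
      (Nq ({()} : Finset Unit) (fun _ => s⁻¹) (fun _ => G s) β R p)) (𝓝[≠] 0) (𝓝 N0) := by
    have k0 : ∀ s : ℝ, Nq ({()} : Finset Unit) (fun _ => s⁻¹) (fun _ => G s) β R p =
        s⁻¹ • (Dm (G s) p - ContinuousLinearMap.id ℝ E) + (β p).smulRight (R p) := by
      intro s; simp [Nq]
    simp_rw [k0]
    refine Tendsto.add ?_ tendsto_const_nhds
    -- convergence of operators on a finite-dimensional space
    have k1 : ∀ u, Tendsto (fun s : ℝ =>
        ((s⁻¹ • (Dm (G s) p - ContinuousLinearMap.id ℝ E) : E →L[ℝ] E)) u)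
        (𝓝[≠] 0) (𝓝 (X' u)) := by
      intro u
      have k2 := (hasDerivAt_iff_tendsto_slope_zero.1 (hasDerivAt_Dm dG hfix u))
      refine k2.congr' ?_
      filter_upwards [self_mem_nhdsWithin] with s hs
      have k3 : Dm (G 0) p u = u := by
        have k4 : G 0 = id := by ext1 z; exact dG.zero z
        rw [k4]
        have k5 : Dm (E := E) (id : M → M) p = ContinuousLinearMap.id ℝ E := mfderiv_id
        rw [k5]; rfl
      rw [zero_add, k3]
      rfl
    let b := Module.finBasis ℝ E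
    have k2 : Tendsto (fun s : ℝ => LinearMap.toMatrix b b
        ((s⁻¹ • (Dm (G s) p - ContinuousLinearMap.id ℝ E) : E →L[ℝ] E) : E →ₗ[ℝ] E)) (𝓝[≠] 0)
        (𝓝 (LinearMap.toMatrix b b (X' : E →ₗ[ℝ] E))) := by
      refine tendsto_pi_nhds.2 fun i => tendsto_pi_nhds.2 fun j => ?_
      simp only [LinearMap.toMatrix_apply]
      exact (((b.coord i).toContinuousLinearMap.continuous.tendsto _).comp (k1 (b j)))
    have k3 : Continuous fun A : Matrix (Fin (Module.finrank ℝ E)) (Fin (Module.finrank ℝ E)) ℝ =>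
        (LinearMap.toContinuousLinearMap (Matrix.toLin b b A) : E →L[ℝ] E) :=
      LinearMap.continuous_of_finiteDimensional
        ((LinearMap.toContinuousLinearMap (𝕜 := ℝ) (E := E) (F' := E)).toLinearMap.comp
          (Matrix.toLin b b).toLinearMap)
    have k4 := (k3.tendsto _).comp k2
    have k5 : ∀ A : E →L[ℝ] E, LinearMap.toContinuousLinearMap
        (Matrix.toLin b b (LinearMap.toMatrix b b (A : E →ₗ[ℝ] E))) = A := by
      intro A
      rw [Matrix.toLin_toMatrix]
      ext; rfl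
    rw [k5] at k4
    refine k4.congr fun s => ?_
    exact k5 _
  have hdet := (ContinuousLinearMap.continuous_det.tendsto N0).comp hlim
  obtain ⟨s, hs⟩ := (hdet.eventually_ne hN0).exists
  exact ⟨s, hs⟩

end Q71.WN
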