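import Mathlib
import Pool.Agent.Q71.WN.Lin
import Pool.Agent.H826R2.Wein.Bridge
import Pool.Agent.H826R2.Wein.Flw

/-! Periodic Reeb orbits from nondegenerate relative fixed orbits, nondegenerate critical points of
first integrals, and countable invariant sets. -/

set_option autoImplicit false

open scoped Topology ContDiff Manifold
open Set Metric Filter Pool.Agent.Helper186 Pool.Agent.H826R2.Wein

noncomputable section

namespace Q71.WN

set_option linter.unusedSectionVars false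

universe u

variable {E : Type u} [NormedAddCommGroup E] [NormedSpace ℝ E] [FiniteDimensional ℝ E]
  {M : Type*} [TopologicalSpace M] [ChartedSpace E M] [IsManifold 𝓘(ℝ, E) ∞ M] [T2Space M]
  {β : M → E →L[ℝ] ℝ} {R : M → E} {Φ : ℝ → M → M}

lemma X_one (c : CD (P := M) β R) (x : M) : (c.X (fun _ => 1) x : E) = R x := by
  symm
  have : (R x : TangentSpace 𝓘(ℝ, E) x) = c.X (fun _ => 1) x := by
    apply c.X_unique
    intro v
    have h1 := HB_apply (P := M) (β := β) x (R x) v
    have h2 : dForm 𝓘(ℝ, E) (fun _ : M => (1:ℝ)) x v = 0 := by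
      have : mfderiv 𝓘(ℝ, E) 𝓘(ℝ, ℝ) (fun _ : M => (1:ℝ)) x = 0 := mfderiv_const
      exact DFunLike.congr_fun this v
    have h3 : β x (R x) = 1 := c.reeb.unit x
    have h4 : extDer (M := M) 𝓘(ℝ, E) β x (R x) v = 0 := c.reeb.kernel x v
    refine h1.trans ?_
    rw [h2]
    show β x (R x) * β x v + extDer (M := M) 𝓘(ℝ, E) β x (R x) v = 1 * β x v - 0
    rw [h3, h4]; ring
  exact this

lemma smooth_R (c : CD (P := M) β R) : ContMDiff 𝓘(ℝ, E) 𝓘(ℝ, E).tangent ∞
    (fun x => (⟨x, R x⟩ : TangentBundle 𝓘(ℝ, E) M)) := by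
  have h1 := c.smooth_X (f := fun _ : M => (1:ℝ)) contMDiff_const
  have h2 : (fun x => (⟨x, R x⟩ : TangentBundle 𝓘(ℝ, E) M)) =
      fun x => (⟨x, c.X (fun _ => 1) x⟩ : TangentBundle 𝓘(ℝ, E) M) := by
    ext1 x
    exact congrArg (fun w : E => (⟨x, w⟩ : TangentBundle 𝓘(ℝ, E) M)) (X_one c x).symm
  rw [h2]; exact h1

/-- flows of Hamiltonian fields give flow data -/
lemma HF_FD {c : CD (P := M) β R} {f : M → ℝ} (F : HF c f) :
    FD (fun x => (c.X f x : E)) (fun s x => F.Fl x s) where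
  flow := F.smooth_i
  int := F.int
  zero := F.zero
  add := fun s t x => by rw [add_comm s t]; exact F.add x t s

/-- the Reeb flow as a Hamiltonian flow -/
def reebHF (c : CD (P := M) β R) (h0 : ∀ x, Φ 0 x = x)
    (hint : ∀ x, IsMIntegralCurve (I := 𝓘(ℝ, E)) (fun t => Φ t x)
      (fun x => (R x : TangentSpace 𝓘(ℝ, E) x))) : HF c (fun _ => 1) where
  Fl := fun x t => Φ t x
  zero := h0
  int := fun x => by
    have h1 : (fun x => (c.X (fun _ => 1) x)) = fun x => (R x : TangentSpace 𝓘(ℝ, E) x) := by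
      ext1 y; exact X_one c y
    have h2 := hint x
    rw [← h1] at h2
    exact h2
  smooth := contMDiff_const
  first := fun x => by
    have : mfderiv 𝓘(ℝ, E) 𝓘(ℝ, ℝ) (fun _ : M => (1:ℝ)) x = 0 := mfderiv_const
    exact DFunLike.congr_fun this (R x)

lemma reeb_dat (c : CD (P := M) β R) (h0 : ∀ x, Φ 0 x = x)
    (hint : ∀ x, IsMIntegralCurve (I := 𝓘(ℝ, E)) (fun t => Φ t x)
      (fun x => (R x : TangentSpace 𝓘(ℝ, E) x))) : Dat β R Φ where
  flow := (HF_FD (reebHF c h0 hint)).flow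
  int := hint
  zero := h0
  add := (HF_FD (reebHF c h0 hint)).add
  smooth := c.contact.smooth
  unit := c.reeb.unit
  strict := fun t x u => (reebHF c h0 hint).strict t x u

/-- the bilinear form `β ⊗ β + dβ` -/
def HBE (β : M → E →L[ℝ] ℝ) (x : M) : E →L[ℝ] E →L[ℝ] ℝ := HB (P := M) β x

/-- the exterior derivative -/
def eD (β : M → E →L[ℝ] ℝ) (x : M) (u v : E) : ℝ :=
  extDer (I := 𝓘(ℝ, E)) (α := fun x => (β x : TangentSpace 𝓘(ℝ, E) x →L[ℝ] ℝ)) x u v

lemma HBE_apply (x : M) (u v : E) : HBE β x u v = β x u * β x v + eD β x u v :=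
  HB_apply (P := M) (β := β) x u v

lemma HBE_nondeg (c : CD (P := M) β R) (x : M) (u : E) (h : ∀ v, HBE β x u v = 0) : u = 0 :=
  HB_nondeg c.contact c.reeb x u h

lemma HBE_R (c : CD (P := M) β R) (x : M) (v : E) : HBE β x (R x) v = β x v := by
  have h3 : β x (R x) = 1 := c.reeb.unit x
  have h4 : eD β x (R x) v = 0 := c.reeb.kernel x v
  rw [HBE_apply, h3, h4]; ring

section strict

variable {g : M → M} (hg : ContMDiff 𝓘(ℝ, E) 𝓘(ℝ, E) ∞ g)
  (hs : ∀ x (u : E), β (g x) (Dm g x u) = β x u)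

include hg hs

lemma HB_push' (c : CD (P := M) β R) (x : M) (u v : E) :
    HBE β (g x) (Dm g x u) (Dm g x v) = HBE β x u v := by
  have h1 : pullForm 𝓘(ℝ, E) 𝓘(ℝ, E) g β = β := by
    ext1 y
    exact ContinuousLinearMap.ext fun w => hs y w
  have h2 := extDer_pull hg c.contact.smooth x u v
  rw [h1] at h2
  rw [HBE_apply, HBE_apply, hs, hs]
  congr 1
  exact h2.symm

/-- strict contact maps preserve the Reeb field -/
lemma push_R (c : CD (P := M) β R) (x : M) : Dm g x (R x) = R (g x) := by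
  have hinj : Function.Injective (Dm (E := E) g x) := by
    rw [injective_iff_map_eq_zero]
    intro u hu
    apply HBE_nondeg c x u
    intro v
    have h1 := HB_push' hg hs c x u v
    rw [hu, map_zero] at h1
    exact h1.symm
  have hsurj : Function.Surjective (Dm (E := E) g x) :=
    (LinearMap.injective_iff_surjective (f := (Dm (E := E) g x : E →ₗ[ℝ] E))).1 hinj
  have h1 : ∀ w : E, HBE β (g x) (Dm g x (R x) - R (g x)) w = 0 := by
    intro w
    obtain ⟨v, rfl⟩ := hsurj w
    rw [map_sub, sub_apply, HB_push' hg hs c, HBE_R c, HBE_R c, hs, sub_self]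
  exact sub_eq_zero.1 (HBE_nondeg c (g x) _ h1)

lemma commute (c : CD (P := M) β R) (d : Dat β R Φ) (t : ℝ) (x : M) :
    g (Φ t x) = Φ t (g x) := by
  have : IsManifold 𝓘(ℝ, E) 1 M := IsManifold.of_le (n := ∞) (by simp)
  have h1 : IsMIntegralCurve (I := 𝓘(ℝ, E)) (fun t => g (Φ t x))
      (fun x => (R x : TangentSpace 𝓘(ℝ, E) x)) := by
    intro s
    have h2 := HasMFDerivAt.comp s (g := g) (f := fun t => Φ t x)
      (hg.mdifferentiableAt (by simp)).hasMFDerivAt (d.int x s)
    refine h2.congr_mfderiv ?_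
    refine ContinuousLinearMap.ext fun (r : ℝ) => ?_
    have h3 := push_R hg hs c (Φ s x)
    show Dm g (Φ s x) (r • R (Φ s x)) = r • R (g (Φ s x))
    rw [map_smul, h3]
  have h2 : (fun t => g (Φ t x)) = fun t => Φ t (g x) := by
    refine isMIntegralCurve_Ioo_eq_of_contMDiff_boundaryless (t₀ := 0)
      ((smooth_R c).of_le (by simp)) h1 (d.int _) ?_
    simp only [d.zero]
  exact congrFun h2 t

end strict

end Q71.WN
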