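import Mathlib
import Pool.Agent.Q71.WN.Main

/-! The two periodicity theorems. -/

set_option autoImplicit false

open scoped Topology ContDiff Manifold
open Set Metric Filter Pool.Agent.Helper186 Pool.Agent.H826R2.Wein

noncomputable section

namespace Q71.WN

set_option linter.unusedSectionVars false

universe u

variable {E : Type u} [NormedAddCommGroup E] [NormedSpace ℝ E] [FiniteDimensional ℝ E]
  {M : Type*} [TopologicalSpace M] [ChartedSpace E M] [IsManifold 𝓘(ℝ, E) ∞ M] [T2Space M]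
  {β : M → E →L[ℝ] ℝ} {R : M → E} {Φ : ℝ → M → M}

theorem relative [CompactSpace M] (c : CD (P := M) β R) (d : Dat β R Φ) {ι : Type*} (s : Finset ι)
    (w : ι → ℝ) (g : ι → M → M) (T : ι → ℝ) (p : M)
    (hg : ∀ i ∈ s, ContMDiff 𝓘(ℝ, E) 𝓘(ℝ, E) ∞ (g i))
    (hs : ∀ i ∈ s, ∀ x (u : E), β (g i x) (Dm (g i) x u) = β x u)
    (hp : ∀ i ∈ s, g i p = Φ (T i) p)
    (hnd : ∀ u, β p u = 0 →
      ∑ i ∈ s, w i • (Dm (fun x => Φ (-T i) (g i x)) p u - u) = 0 → u = 0) :
    ∃ T' : ℝ, 0 < T' ∧ Φ T' p = p := by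
  set G : ι → M → M := fun i x => Φ (-T i) (g i x) with hG
  have hG1 : ∀ i ∈ s, ContMDiff 𝓘(ℝ, E) 𝓘(ℝ, E) ∞ (G i) := fun i hi =>
    (d.toFD.smooth_t (-T i)).comp (hg i hi)
  have hG2 : ∀ i ∈ s, ∀ t x, G i (Φ t x) = Φ t (G i x) := by
    intro i hi t x
    show Φ (-T i) (g i (Φ t x)) = Φ t (Φ (-T i) (g i x))
    rw [commute (hg i hi) (hs i hi) c d, ← d.add, ← d.add, add_comm]
  have hG3 : p ∈ Fx s G := by
    intro i hi
    show Φ (-T i) (g i p) = p
    rw [hp i hi, d.toFD.neg_add]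
  have hG4 : ∀ i ∈ s, ∀ u : E, β p (Dm (G i) p u) = β p u := by
    intro i hi u
    have h1 := HasMFDerivAt.comp p (((d.toFD.smooth_t (-T i)).mdifferentiableAt (x := g i p)
      (by simp)).hasMFDerivAt) (((hg i hi).mdifferentiableAt (x := p) (by simp)).hasMFDerivAt)
    have h2 : Dm (G i) p u = Dm (Φ (-T i)) (g i p) (Dm (g i) p u) :=
      DFunLike.congr_fun h1.mfderiv u
    have h3 := d.strict (-T i) (g i p) (Dm (g i) p u)
    rw [hs i hi] at h3
    have h4 : Φ (-T i) (g i p) = p := hG3 i hi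
    rw [h4] at h3
    rw [h2]; exact h3
  refine periodic (c := w) d hG1 hG2 hG3 (det_ne_of_inj fun u hu => ?_)
  have e1 : ∑ i ∈ s, w i • (Dm (G i) p u - u) + β p u • R p = 0 := by
    have : Nq s w G β R p u = ∑ i ∈ s, w i • (Dm (G i) p u - u) + β p u • R p := by
      simp [Nq]
    rw [← this]; exact hu
  have e2 := congrArg (β p) e1
  have e3 : β p (∑ i ∈ s, w i • (Dm (G i) p u - u)) = 0 := by
    rw [map_sum]
    refine Finset.sum_eq_zero fun i hi => ?_
    rw [map_smul, map_sub, hG4 i hi, sub_self, smul_zero]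
  rw [map_add, e3, map_smul, d.unit, map_zero, zero_add, smul_eq_mul, mul_one] at e2
  rw [e2, zero_smul, add_zero] at e1
  exact hnd u e2 e1

theorem critical [CompactSpace M] (c : CD (P := M) β R) (d : Dat β R Φ) (f : M → ℝ)
    (hf : ContMDiff 𝓘(ℝ, E) 𝓘(ℝ, ℝ) ∞ f) (hfR : ∀ x, dForm 𝓘(ℝ, E) f x (R x) = 0) (p : M)
    (hcrit : ∀ v : E, dForm 𝓘(ℝ, E) f p v = 0)
    (hnd : ∀ u, β p u = 0 → (∀ v, β p v = 0 →
      fderiv ℝ (fderiv ℝ (fh (E := E) p f)) (extChartAt 𝓘(ℝ, E) p p) u v = 0) → u = 0) :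
    ∃ T' : ℝ, 0 < T' ∧ Φ T' p = p := by
  have hI : IsManifold 𝓘(ℝ, E) 1 M := IsManifold.of_le (n := ∞) (by simp)
  -- normalise the value at `p`
  set f' : M → ℝ := fun x => f x - f p with hf'
  have hf'1 : ContMDiff 𝓘(ℝ, E) 𝓘(ℝ, ℝ) ∞ f' := hf.sub contMDiff_const
  have hd : ∀ x (v : E), dForm 𝓘(ℝ, E) f' x v = dForm 𝓘(ℝ, E) f x v := by
    intro x v
    have h1 := ((hf.mdifferentiableAt (x := x) (by simp)).hasMFDerivAt).sub
      (hasMFDerivAt_const (I := 𝓘(ℝ, E)) (I' := 𝓘(ℝ, ℝ)) (f p) x)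
    have h2 := DFunLike.congr_fun h1.mfderiv v
    refine h2.trans ?_
    show dForm 𝓘(ℝ, E) f x v - (0:ℝ) = _
    rw [sub_zero]
  have hf'R : ∀ x, dForm 𝓘(ℝ, E) f' x (R x) = 0 := fun x => (hd x _).trans (hfR x)
  -- the flow
  have hflow : ∀ x : M, ∃ γ : ℝ → M, γ 0 = x ∧ IsMIntegralCurve (I := 𝓘(ℝ, E)) γ (c.X f') :=
    fun x => complete_of_compact (c.smooth_X hf'1) isCompact_univ
      (fun y hy => absurd (mem_univ y) hy) x
  choose γ hγ0 hγ using hflow
  let F : HF c f' := ⟨γ, hγ0, hγ, hf'1, hf'R⟩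
  have dG := HF_FD F
  set G : ℝ → M → M := fun s x => F.Fl x s with hG
  have hX0 : (c.X f' p : E) = 0 := by
    have h2 : (0 : TangentSpace 𝓘(ℝ, E) p) = c.X f' p := by
      apply c.X_unique
      intro w
      have e1 : HB (P := M) β p 0 w = 0 :=
        congrArg (fun A : E →L[ℝ] ℝ => A w) (map_zero (HB (P := M) β p))
      refine e1.trans ?_
      have e2 : f' p = 0 := sub_self _
      rw [e2, zero_mul, zero_sub]
      exact (neg_eq_zero.2 ((hd p w).trans (hcrit w))).symm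
    exact h2.symm
  have hfix : ∀ s, G s p = p := by
    intro s
    have h1 : IsMIntegralCurve (I := 𝓘(ℝ, E)) (fun _ : ℝ => p) (c.X f') := by
      intro t
      have h2 : HasMFDerivAt 𝓘(ℝ, ℝ) 𝓘(ℝ, E) (fun _ : ℝ => p) t (0 : ℝ →L[ℝ] E) :=
        hasMFDerivAt_const p t
      refine h2.congr_mfderiv ?_
      refine ContinuousLinearMap.ext fun (r : ℝ) => ?_
      show (0:E) = r • (c.X f' p : E)
      rw [hX0]
      exact (smul_zero r).symm
    have h2 : (fun _ : ℝ => p) = F.Fl p := by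
      refine isMIntegralCurve_Ioo_eq_of_contMDiff_boundaryless (t₀ := 0)
        ((c.smooth_X hf'1).of_le (by simp)) h1 (F.int p) ?_
      exact (F.zero p).symm
    exact (congrFun h2 s).symm
  have hstrict : ∀ s (u : E), β p (Dm (G s) p u) = β p u := by
    intro s u
    have h1 : β (G s p) (Dm (G s) p u) = β p u := F.strict s p u
    rw [hfix s] at h1
    exact h1
  have hfh : fderiv ℝ (fderiv ℝ (fh (E := E) p f')) = fderiv ℝ (fderiv ℝ (fh (E := E) p f)) := by
    have h1 : fderiv ℝ (fh (E := E) p f') = fderiv ℝ (fh (E := E) p f) := by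
      ext1 x
      have : fh (E := E) p f' = fun x => fh (E := E) p f x - f p := rfl
      rw [this, fderiv_sub_const]
    rw [h1]
  obtain ⟨s, hs⟩ := exists_time (c := c) (G := G) dG hf'1 hfix hstrict (sub_self _)
    (fun v => (hd p v).trans (hcrit v)) (by rw [hfh]; exact hnd)
  refine periodic (s := ({()} : Finset Unit)) (c := fun _ => s⁻¹) (g := fun _ => G s) d
    (fun _ _ => F.smooth_t s) ?_ (fun _ _ => hfix s) hs
  -- the flows commute
  intro _ _ t x
  have hinv : ∀ x, f' (Φ t x) = f' x := by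
    intro x
    have h1 : ∀ r, HasDerivAt (fun r => f' (Φ r x)) 0 r := by
      intro r
      have h2 := hasDerivAt_along (P := M) (W := fun x => (R x : TangentSpace 𝓘(ℝ, E) x))
        (c := fun t => Φ t x) (t := r) (d.int x r) hf'1
      exact h2.congr_deriv (hf'R _)
    have h3 := is_const_of_deriv_eq_zero (fun r => (h1 r).differentiableAt)
      (fun r => (h1 r).deriv) t 0
    rw [d.zero] at h3
    exact h3
  have hcto : Cto (P := M) β (Φ t) (Φ (-t)) :=
    { smooth := d.toFD.smooth_t t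
      smooth' := d.toFD.smooth_t (-t)
      right := fun x => by
        have := d.toFD.neg_add (-t) x
        rwa [neg_neg] at this
      left := fun x => d.toFD.neg_add t x
      strict := fun x u => d.strict t x u }
  exact (F.conj hcto F hinv x s).symm

end Q71.WN
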